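import Mathlib
import Pool.Agent.P.MP_335bcb_an.Cloning
import Pool.Agent.P.MP_335bcb_an.Transfer

set_option autoImplicit false

namespace Pool.Agent.Results.MP_335bcb_an.McDuffGamma

open Pool.Agent.P.MP_335bcb_an

/-- For every group `G` with an automorphism `φ` of order at most two, the group von Neumann
algebras of both cloning groups (`ψ = false`: labels in `G ^ n`; `ψ = true`: first label trivial)
absorb the hyperfinite II₁ factor and have property Gamma. -/
theorem result (G : Type) [Group G] (φ : G ≃* G) (hφ : ∀ g, φ (φ g) = g) (ψ : Bool)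
    (H K L : Type) [NormedAddCommGroup H] [InnerProductSpace ℂ H] [CompleteSpace H]
    [NormedAddCommGroup K] [InnerProductSpace ℂ K] [CompleteSpace K]
    [NormedAddCommGroup L] [InnerProductSpace ℂ L] [CompleteSpace L]
    (b : HilbertBasis (CloningGroup φ ψ) ℂ H) (c : HilbertBasis (Finset ℕ × Finset ℕ) ℂ K)
    (d : HilbertBasis (CloningGroup φ ψ × (Finset ℕ × Finset ℕ)) ℂ L) :
    StarIso (groupAlg b) (tensorAlg b c d (groupAlg b) (pauliAlg c)) ∧ HasGamma b :=
  ⟨isMcDuff_of (cloning_main hφ).1 b c d, hasGamma_of (cloning_main hφ).2 b⟩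

end Pool.Agent.Results.MP_335bcb_an.McDuffGamma
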